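import Pool.Agent.TH581.HH.Stm

/-! # HH-STAR: the weighted inequality in the direction `e₀` -/

set_option autoImplicit false

noncomputable section

open MeasureTheory Set Filter Topology
open scoped ENNReal NNReal

namespace Pool.Agent.TH581.HH.H985

/-- the point with first coordinate `t` over `z` -/
def mk {m : ℕ} (t : ℝ) (z : E m) : E (m + 1) := WithLp.toLp 2 (Fin.cons t (fun i => z i))

lemma mk_zero {m : ℕ} (t : ℝ) (z : E m) : mk t z 0 = t := rfl
lemma mk_succ {m : ℕ} (t : ℝ) (z : E m) (i : Fin m) : mk t z i.succ = z i := rfl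
lemma pr_mk {m : ℕ} (t : ℝ) (z : E m) : pr (mk t z) = z := rfl

lemma mk_pr {m : ℕ} (x : E (m + 1)) : mk (x 0) (pr x) = x := by
  ext i
  refine Fin.cases ?_ (fun j => ?_) i
  · rfl
  · rfl

lemma cont_mk {m : ℕ} : Continuous (fun p : ℝ × E m => mk p.1 p.2) := by
  unfold mk
  refine (PiLp.continuous_toLp 2 _).comp ?_
  refine continuous_pi fun i => ?_
  refine Fin.cases ?_ (fun j => ?_) i
  · exact continuous_fst
  · show Continuous fun p : ℝ × E m => p.2 j
    fun_prop

lemma mk_add_t {m : ℕ} (t s : ℝ) (z : E m) (a b : ℝ) (hab : a + b = 1) :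
    mk (a * t + b * s) z = a • mk t z + b • mk s z := by
  ext i
  refine Fin.cases ?_ (fun j => ?_) i
  · rfl
  · show z j = a * z j + b * z j
    rw [← add_mul, hab, one_mul]

/-- Fubini over the fibres -/
lemma fub {m : ℕ} {G : E (m + 1) → ℝ≥0∞} (hG : Measurable G) :
    ∫⁻ x, G x = ∫⁻ z : E m, ∫⁻ t : ℝ, G (mk t z) := by
  have e1 := volume_preserving_piFinSuccAbove (fun _ : Fin (m + 1) => ℝ) 0
  have e2 := PiLp.volume_preserving_ofLp (Fin (m + 1))
  have e := e1.comp e2
  let G' : ℝ × (Fin m → ℝ) → ℝ≥0∞ := fun p => G (WithLp.toLp 2 (Fin.cons p.1 p.2))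
  have hG' : Measurable G' := by
    refine hG.comp ?_
    refine (WithLp.measurable_toLp 2 _).comp ?_
    refine measurable_pi_iff.2 fun i => ?_
    refine Fin.cases ?_ (fun j => ?_) i
    · exact measurable_fst
    · exact (measurable_pi_apply j).comp measurable_snd
  have h1 : ∫⁻ x, G x = ∫⁻ p, G' p := by
    rw [← e.lintegral_comp hG']
    refine lintegral_congr fun x => ?_
    show G x = G (WithLp.toLp 2 (Fin.cons (x 0) (fun j : Fin m => x j.succ)))
    congr 1
    exact (mk_pr x).symm
  rw [h1, Measure.volume_eq_prod, lintegral_prod_symm' _ hG']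
  have e3 := PiLp.volume_preserving_ofLp (Fin m)
  have h2 : Measurable fun y : Fin m → ℝ => ∫⁻ t : ℝ, G' (t, y) :=
    hG'.lintegral_prod_left'
  rw [← e3.lintegral_comp h2]
  rfl

/-- hyperplanes are null sets -/
lemma null_hyp {m : ℕ} (c : E m) (d : ℝ) (h : c ≠ 0 ∨ d ≠ 0) :
    volume {z : E m | inner ℝ c z = d} = 0 := by
  by_cases hc : c = 0
  · have hd : d ≠ 0 := by
      rcases h with h | h
      · exact absurd hc h
      · exact h
    have : {z : E m | inner ℝ c z = d} = ∅ := by
      ext z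
      simp only [mem_ofPred_eq, mem_empty_iff_false, iff_false]
      rw [hc, inner_zero_left]
      exact fun h => hd h.symm
    rw [this, measure_empty]
  · let s : AffineSubspace ℝ (E m) :=
      { carrier := {z : E m | inner ℝ c z = d}
        smul_vsub_vadd_mem' := by
          intro a p1 p2 p3 h1 h2 h3
          change inner ℝ c p1 = d at h1
          change inner ℝ c p2 = d at h2
          change inner ℝ c p3 = d at h3
          change inner ℝ c (a • (p1 -ᵥ p2) +ᵥ p3) = d
          rw [vsub_eq_sub, vadd_eq_add, inner_add_right, inner_smul_right, inner_sub_right,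
            h1, h2, h3]
          ring }
    have hs : s ≠ ⊤ := by
      intro hs
      have hmem : ∀ z, inner ℝ c z = d := by
        intro z
        have : z ∈ s := by rw [hs]; exact AffineSubspace.mem_top _ _ _
        exact this
      have h0 := hmem 0
      rw [inner_zero_right] at h0
      have h1 := hmem c
      rw [← h0, real_inner_self_eq_norm_sq] at h1
      exact hc (norm_eq_zero.1 (pow_eq_zero_iff two_ne_zero |>.1 h1))
    exact Measure.addHaar_affineSubspace volume s hs

/-- one-dimensional Hermite-Hadamard -/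
lemma hh1 {g : ℝ → ℝ} (hg : Continuous g) (h0 : ∀ t, 0 ≤ g t) {a c : ℝ} (hac : a ≤ c)
    (hcv : ConvexOn ℝ (Icc a c) g) :
    2 * ∫⁻ t in Icc a c, ENNReal.ofReal (g t) ≤
      ENNReal.ofReal (c - a) * (ENNReal.ofReal (g a) + ENNReal.ofReal (g c)) := by
  have h1 : ∫⁻ t in Icc a c, ENNReal.ofReal (g t) = ENNReal.ofReal (∫ t in a..c, g t) := by
    rw [intervalIntegral.integral_of_le hac, ← integral_Icc_eq_integral_Ioc,
      ofReal_integral_eq_lintegral_ofReal]
    · exact (hg.continuousOn).integrableOn_Icc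
    · exact Eventually.of_forall h0
  have h2 : ∫ t in a..c, g (a + c - t) = ∫ t in a..c, g t := by
    rw [intervalIntegral.integral_comp_sub_left]
    congr 1 <;> ring
  have h3 : 2 * ∫ t in a..c, g t ≤ (c - a) * (g a + g c) := by
    have hg2 : Continuous fun t : ℝ => g (a + c - t) := hg.comp (by fun_prop)
    have e1 : 2 * ∫ t in a..c, g t = ∫ t in a..c, (g t + g (a + c - t)) := by
      rw [intervalIntegral.integral_add (hg.intervalIntegrable _ _)
        (hg2.intervalIntegrable _ _), h2]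
      ring
    rw [e1]
    have e2 : (c - a) * (g a + g c) = ∫ t in a..c, (g a + g c) := by
      rw [intervalIntegral.integral_const, smul_eq_mul]
    rw [e2]
    refine intervalIntegral.integral_mono_on hac ?_ (by simp) ?_
    · exact (hg.add hg2).intervalIntegrable _ _
    · intro t ht
      rcases hac.eq_or_lt with h | h
      · have : t = a := le_antisymm (ht.2.trans h.symm.le) ht.1
        subst this
        rw [← h]
        simp
      · have hd : 0 < c - a := sub_pos.2 h
        have r1 : 0 ≤ (c - t) / (c - a) := div_nonneg (by linarith [ht.2]) hd.le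
        have r2 : 0 ≤ (t - a) / (c - a) := div_nonneg (by linarith [ht.1]) hd.le
        have p1 := hcv.2 (left_mem_Icc.2 hac) (right_mem_Icc.2 hac) r1 r2
          (by field_simp; ring)
        have p2 := hcv.2 (left_mem_Icc.2 hac) (right_mem_Icc.2 hac) r2 r1
          (by field_simp; ring)
        simp only [smul_eq_mul] at p1 p2
        have q1 : (c - t) / (c - a) * a + (t - a) / (c - a) * c = t := by
          field_simp; ring
        have q2 : (t - a) / (c - a) * a + (c - t) / (c - a) * c = a + c - t := by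
          field_simp; ring
        rw [q1] at p1
        rw [q2] at p2
        have q3 : (c - t) / (c - a) * g a + (t - a) / (c - a) * g c +
            ((t - a) / (c - a) * g a + (c - t) / (c - a) * g c) = g a + g c := by
          field_simp; ring
        linarith
  rw [h1, ← ENNReal.ofReal_add (h0 a) (h0 c), ← ENNReal.ofReal_mul (by linarith)]
  have h4 : (2 : ℝ≥0∞) = ENNReal.ofReal 2 := by simp
  rw [h4, ← ENNReal.ofReal_mul (by norm_num)]
  exact ENNReal.ofReal_le_ofReal h3

lemma inner_mk {m : ℕ} (ν x : E (m + 1)) :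
    inner ℝ ν x = ν 0 * x 0 + ∑ k : Fin m, ν k.succ * x k.succ := by
  rw [PiLp.inner_apply, Fin.sum_univ_succ]
  congr 1
  · simp [mul_comm]
  · refine Finset.sum_congr rfl fun k _ => ?_
    simp [mul_comm]

lemma inner_mk' {m : ℕ} (ν : E (m + 1)) (t : ℝ) (z : E m) :
    inner ℝ ν (mk t z) = ν 0 * t + ∑ k : Fin m, ν k.succ * z k := inner_mk ν (mk t z)

lemma hg_eq {m : ℕ} (ν : E (m + 1)) (b : ℝ) (z : E m) :
    hg ν b z = mk ((b - ∑ i, ν i.succ * z i) / ν 0) z := rfl

lemma inner_hg' {m : ℕ} (ν : E (m + 1)) (b : ℝ) (z : E m) (h : ν 0 ≠ 0) :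
    inner ℝ ν (hg ν b z) = b := by
  rw [hg_eq, inner_mk']
  field_simp
  ring

lemma hg_of {m : ℕ} (ν : E (m + 1)) (b t : ℝ) (z : E m) (h : ν 0 ≠ 0)
    (hb : inner ℝ ν (mk t z) = b) : hg ν b z = mk t z := by
  rw [hg_eq]
  congr 1
  rw [inner_mk'] at hb
  rw [← hb]
  field_simp
  ring

lemma cont_hg {m : ℕ} (ν : E (m + 1)) (b : ℝ) : Continuous (hg ν b) := by
  have h : Continuous fun z : E m => ((b - ∑ i, ν i.succ * z i) / ν 0) := by
    fun_prop
  exact cont_mk.comp (h.prodMk continuous_id)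

variable {m N : ℕ} (ν : Fin N → E (m + 1)) (b : Fin N → ℝ)

/-- the shadow of a facet -/
def Sh (i : Fin N) : Set (E m) := {z | hg (ν i) (b i) z ∈ Poly ν b}

lemma closed_poly : IsClosed (Poly ν b) := by
  have : Poly ν b = ⋂ i, {x | inner ℝ (ν i) x ≤ b i} := by
    ext x; simp [Poly]
  rw [this]
  exact isClosed_iInter fun i => isClosed_le (by fun_prop) continuous_const

lemma convex_poly : Convex ℝ (Poly ν b) := by
  intro x hx y hy a c ha hc hac i
  rw [inner_add_right, inner_smul_right, inner_smul_right]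
  have h1 := mul_le_mul_of_nonneg_left (hx i) ha
  have h2 := mul_le_mul_of_nonneg_left (hy i) hc
  have h3 : a * b i + c * b i = b i := by rw [← add_mul, hac, one_mul]
  linarith

lemma meas_Sh (i : Fin N) : MeasurableSet (Sh ν b i) :=
  ((closed_poly ν b).preimage (cont_hg (ν i) (b i))).measurableSet

lemma fac_eq (i : Fin N) (h : ν i 0 ≠ 0) : Fac ν b i = hg (ν i) (b i) '' Sh ν b i := by
  ext x
  constructor
  · rintro ⟨hx, hxi⟩
    have e : hg (ν i) (b i) (pr x) = x := by
      have := hg_of (ν i) (b i) (x 0) (pr x) h (by rw [mk_pr]; exact hxi)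
      rw [this, mk_pr]
    refine ⟨pr x, ?_, e⟩
    show hg (ν i) (b i) (pr x) ∈ Poly ν b
    rw [e]; exact hx
  · rintro ⟨z, hz, rfl⟩
    exact ⟨hz, inner_hg' _ _ _ h⟩

/-- two shadows of facets on the same side meet in a null set -/
lemma null_int (hG : Good ν b) {i j : Fin N} (hij : i ≠ j) (hs : 0 < ν i 0 * ν j 0) :
    volume (Sh ν b i ∩ Sh ν b j) = 0 := by
  have hi : ν i 0 ≠ 0 := by
    intro h; rw [h, zero_mul] at hs; exact lt_irrefl _ hs
  have hj : ν j 0 ≠ 0 := by
    intro h; rw [h, mul_zero] at hs; exact lt_irrefl _ hs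
  let c : E m := WithLp.toLp 2 (fun k => ν i k.succ / ν i 0 - ν j k.succ / ν j 0)
  have hc : ∀ k, c k = ν i k.succ / ν i 0 - ν j k.succ / ν j 0 := fun k => rfl
  let d : ℝ := b i / ν i 0 - b j / ν j 0
  refine measure_mono_null (t := {z : E m | inner ℝ c z = d}) ?_ (null_hyp c d ?_)
  · rintro z ⟨h1, h2⟩
    have h1j := h1 j
    have h2i := h2 i
    rw [hg_eq, inner_mk'] at h1j h2i
    set ti := (b i - ∑ k : Fin m, ν i k.succ * z k) / ν i 0 with hti
    set tj := (b j - ∑ k : Fin m, ν j k.succ * z k) / ν j 0 with htj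
    have e1 : b i = ν i 0 * ti + ∑ k : Fin m, ν i k.succ * z k := by
      rw [hti]; field_simp; ring
    have e2 : b j = ν j 0 * tj + ∑ k : Fin m, ν j k.succ * z k := by
      rw [htj]; field_simp; ring
    rw [e1] at h2i
    rw [e2] at h1j
    have f1 : ν j 0 * (ti - tj) ≤ 0 := by linarith
    have f2 : 0 ≤ ν i 0 * (ti - tj) := by linarith
    have f3 : ti = tj := by
      have f4 : ν i 0 * ν j 0 * (ti - tj) ^ 2 ≤ 0 := by nlinarith
      have f5 : (ti - tj) ^ 2 ≤ 0 := by
        by_contra hcon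
        push Not at hcon
        have := mul_pos hs hcon
        linarith
      have f6 : ti - tj = 0 := by
        have := le_antisymm f5 (sq_nonneg _)
        exact pow_eq_zero_iff two_ne_zero |>.1 this
      linarith
    show inner ℝ c z = d
    rw [PiLp.inner_apply]
    have e3 : ∑ k : Fin m, inner ℝ (c k) (z k) = (∑ k : Fin m, ν i k.succ * z k) / ν i 0 -
        (∑ k : Fin m, ν j k.succ * z k) / ν j 0 := by
      rw [Finset.sum_div, Finset.sum_div, ← Finset.sum_sub_distrib]
      refine Finset.sum_congr rfl fun k _ => ?_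
      rw [hc]
      simp
      ring
    rw [e3]
    have e4 : (∑ k : Fin m, ν i k.succ * z k) / ν i 0 = b i / ν i 0 - ti := by
      rw [hti]; field_simp; ring
    have e5 : (∑ k : Fin m, ν j k.succ * z k) / ν j 0 = b j / ν j 0 - tj := by
      rw [htj]; field_simp; ring
    rw [e4, e5, f3]
    ring
  · by_contra hcon
    push Not at hcon
    obtain ⟨hc0, hd0⟩ := hcon
    apply hij
    -- the normals are proportional
    have k1 : ∀ k : Fin m, ν i k.succ / ν i 0 = ν j k.succ / ν j 0 := by
      intro k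
      have h := hc k
      rw [hc0] at h
      have h' : (0 : ℝ) = ν i k.succ / ν i 0 - ν j k.succ / ν j 0 := h
      linarith
    have k2 : ν i = (ν i 0 / ν j 0) • ν j := by
      ext k
      refine Fin.cases ?_ (fun l => ?_) k
      · show ν i 0 = ν i 0 / ν j 0 * ν j 0
        field_simp
      · show ν i l.succ = ν i 0 / ν j 0 * ν j l.succ
        have := k1 l
        field_simp at this ⊢
        linarith
    have k3 : (0 : ℝ) < ν i 0 / ν j 0 := by
      have e : ν i 0 / ν j 0 = (ν i 0 * ν j 0) / (ν j 0) ^ 2 := by field_simp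
      rw [e]
      positivity
    have k4 : ν i 0 / ν j 0 = 1 := by
      have h := congrArg norm k2
      rw [norm_smul, hG.unit, hG.unit, mul_one, Real.norm_of_nonneg k3.le] at h
      exact h.symm
    have k5 : ν i = ν j := by rw [k2, k4, one_smul]
    refine hG.inj i j k5 ?_
    have h : b i / ν i 0 - b j / ν j 0 = 0 := hd0
    rw [k5] at h
    field_simp at h
    linarith

/-- an extreme point of a fibre lies on a facet -/
lemma on_facet (e : ℝ) (x : E (m + 1)) (hx : x ∈ Poly ν b)
    (hout : ∀ ε : ℝ, 0 < ε → mk (x 0 + ε * e) (pr x) ∉ Poly ν b) :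
    ∃ i, 0 < ν i 0 * e ∧ inner ℝ (ν i) x = b i := by
  by_contra hcon
  push Not at hcon
  have h1 : ∀ i, ∀ᶠ ε in 𝓝[>] (0 : ℝ), inner ℝ (ν i) x + ε * (ν i 0 * e) ≤ b i := by
    intro i
    by_cases hi : 0 < ν i 0 * e
    · have hlt : inner ℝ (ν i) x < b i := lt_of_le_of_ne (hx i) (hcon i hi)
      have hc : Tendsto (fun ε : ℝ => inner ℝ (ν i) x + ε * (ν i 0 * e)) (𝓝[>] 0)
          (𝓝 (inner ℝ (ν i) x + 0 * (ν i 0 * e))) :=
        (Continuous.tendsto (by fun_prop) 0).mono_left nhdsWithin_le_nhds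
      rw [zero_mul, add_zero] at hc
      filter_upwards [hc.eventually_lt_const hlt] with ε h using h.le
    · filter_upwards [self_mem_nhdsWithin] with ε hε
      have h2 : ε * (ν i 0 * e) ≤ 0 :=
        mul_nonpos_of_nonneg_of_nonpos (le_of_lt hε) (not_lt.1 hi)
      have h3 := hx i
      linarith
  obtain ⟨ε, hε, hε0⟩ := ((eventually_all.2 h1).and self_mem_nhdsWithin).exists
  refine hout ε hε0 fun i => ?_
  have h2 := hε i
  rw [inner_mk']
  rw [inner_mk] at h2
  have h3 : ν i 0 * (x 0 + ε * e) + ∑ k : Fin m, ν i k.succ * (pr x) k =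
      ν i 0 * x 0 + ∑ k : Fin m, ν i k.succ * x k.succ + ε * (ν i 0 * e) := by
    have h4 : ∑ k : Fin m, ν i k.succ * (pr x) k = ∑ k : Fin m, ν i k.succ * x k.succ := rfl
    rw [h4]
    ring
  rw [h3]
  exact h2

/-- the fibre over `z` -/
def Fib (z : E m) : Set ℝ := {t | mk t z ∈ Poly ν b}

lemma closed_fib (z : E m) : IsClosed (Fib ν b z) :=
  (closed_poly ν b).preimage (cont_mk.comp (continuous_id.prodMk continuous_const))

lemma fib_Icc (hG : Good ν b) (z : E m) (hne : (Fib ν b z).Nonempty) :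
    ∃ B T : ℝ, B ≤ T ∧ Fib ν b z = Icc B T := by
  have hbdd : Bornology.IsBounded (Fib ν b z) := by
    obtain ⟨R, hR⟩ := hG.cpt.isBounded.exists_norm_le
    rw [isBounded_iff_forall_norm_le]
    refine ⟨R, fun t ht => ?_⟩
    have h1 := hR _ ht
    have h2 : ‖mk t z 0‖ ≤ ‖mk t z‖ := PiLp.norm_apply_le _ _
    rw [mk_zero] at h2
    exact h2.trans h1
  have hc : IsCompact (Fib ν b z) := Metric.isCompact_of_isClosed_isBounded (closed_fib ν b z) hbdd
  have hT := hc.sSup_mem hne
  have hB := hc.sInf_mem hne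
  refine ⟨sInf (Fib ν b z), sSup (Fib ν b z), ?_, ?_⟩
  · exact (csInf_le hc.bddBelow hT)
  · apply Subset.antisymm
    · intro t ht
      exact ⟨csInf_le hc.bddBelow ht, le_csSup hc.bddAbove ht⟩
    · have hconv : Convex ℝ (Fib ν b z) := by
        intro s hs t ht a c ha hc' hac
        show mk (a * s + c * t) z ∈ Poly ν b
        rw [mk_add_t s t z a c hac]
        exact convex_poly ν b hs ht ha hc' hac
      exact hconv.ordConnected.out hB hT

/-- the values on the facets over `z` -/
def gf (f : E (m + 1) → ℝ) (i : Fin N) (z : E m) : ℝ≥0∞ :=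
  if ν i 0 ≠ 0 then (Sh ν b i).indicator (fun z => ENNReal.ofReal (f (hg (ν i) (b i) z))) z else 0

lemma gf_of {f : E (m + 1) → ℝ} {i : Fin N} {z : E m} {t : ℝ} (h : ν i 0 ≠ 0)
    (ht : mk t z ∈ Poly ν b) (hb : inner ℝ (ν i) (mk t z) = b i) :
    gf ν b f i z = ENNReal.ofReal (f (mk t z)) := by
  have e := hg_of (ν i) (b i) t z h hb
  unfold gf
  rw [if_pos h, indicator_of_mem]
  · rw [e]
  · show hg (ν i) (b i) z ∈ Poly ν b
    rw [e]; exact ht

lemma fib_ineq (hG : Good ν b) {f : E (m + 1) → ℝ} (hf : Continuous f) (h0 : ∀ x, 0 ≤ f x)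
    (hcv : ConvexOn ℝ (Poly ν b) f) (z : E m) :
    2 * ∫⁻ t : ℝ, (Poly ν b).indicator (fun x => ENNReal.ofReal (f x)) (mk t z) ≤
      volume (Fib ν b z) * ∑ i, gf ν b f i z := by
  have e1 : ∫⁻ t : ℝ, (Poly ν b).indicator (fun x => ENNReal.ofReal (f x)) (mk t z) =
      ∫⁻ t in Fib ν b z, ENNReal.ofReal (f (mk t z)) := by
    rw [← lintegral_indicator (closed_fib ν b z).measurableSet]
    refine lintegral_congr fun t => ?_
    by_cases ht : t ∈ Fib ν b z
    · rw [indicator_of_mem ht, indicator_of_mem (show mk t z ∈ Poly ν b from ht)]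
    · rw [indicator_of_notMem ht, indicator_of_notMem (show mk t z ∉ Poly ν b from ht)]
  rw [e1]
  rcases (Fib ν b z).eq_empty_or_nonempty with hE | hne
  · rw [hE]; simp
  · obtain ⟨B, T, hBT, hF⟩ := fib_Icc ν b hG z hne
    have hB : mk B z ∈ Poly ν b := by
      have : B ∈ Fib ν b z := by rw [hF]; exact left_mem_Icc.2 hBT
      exact this
    have hT : mk T z ∈ Poly ν b := by
      have : T ∈ Fib ν b z := by rw [hF]; exact right_mem_Icc.2 hBT
      exact this
    have hconv : ConvexOn ℝ (Icc B T) (fun t => f (mk t z)) := by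
      refine ⟨convex_Icc _ _, ?_⟩
      intro s hs t ht a c ha hc hac
      rw [← hF] at hs ht
      show f (mk (a * s + c * t) z) ≤ a * f (mk s z) + c * f (mk t z)
      rw [mk_add_t s t z a c hac]
      exact hcv.2 hs ht ha hc hac
    have hcont : Continuous fun t : ℝ => f (mk t z) :=
      hf.comp (cont_mk.comp (continuous_id.prodMk continuous_const))
    have h1 := hh1 hcont (fun t => h0 _) hBT hconv
    rw [hF]
    refine h1.trans ?_
    rw [Real.volume_Icc]
    refine mul_le_mul_right (α := ℝ≥0∞) ?_ _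
    -- the two end points
    obtain ⟨i, hi, hib⟩ := on_facet ν b 1 (mk T z) hT (by
      intro ε hε hmem
      have h2 : T + ε * 1 ∈ Fib ν b z := hmem
      rw [hF] at h2
      have := h2.2
      linarith)
    obtain ⟨j, hj, hjb⟩ := on_facet ν b (-1) (mk B z) hB (by
      intro ε hε hmem
      have h2 : B + ε * (-1) ∈ Fib ν b z := hmem
      rw [hF] at h2
      have := h2.1
      linarith)
    have hij : j ≠ i := by
      rintro rfl
      linarith
    have hi0 : ν i 0 ≠ 0 := by
      intro h; rw [h] at hi; simp at hi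
    have hj0 : ν j 0 ≠ 0 := by
      intro h; rw [h] at hj; simp at hj
    rw [← gf_of ν b hi0 hT hib, ← gf_of ν b hj0 hB hjb]
    refine le_trans (le_of_eq (Finset.sum_pair (f := fun k => gf ν b f k z) hij).symm) ?_
    exact Finset.sum_le_sum_of_subset (Finset.subset_univ _)

lemma meas_gf {f : E (m + 1) → ℝ} (hf : Continuous f) (i : Fin N) : Measurable (gf ν b f i) := by
  unfold gf
  by_cases h : ν i 0 ≠ 0
  · simp only [if_pos h]
    refine Measurable.indicator ?_ (meas_Sh ν b i)
    exact ENNReal.measurable_ofReal.comp (hf.comp (cont_hg _ _)).measurable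
  · simp only [if_neg h]
    exact measurable_const

lemma lint_gf (hF : S_FAC) (hG : Good ν b) {f : E (m + 1) → ℝ} (hf : Continuous f) (i : Fin N) :
    ∫⁻ z, gf ν b f i z = ENNReal.ofReal |ν i 0| *
      ∫⁻ x in Fac ν b i, ENNReal.ofReal (f x) ∂(μHE[m] : Measure (E (m + 1))) := by
  by_cases h : ν i 0 ≠ 0
  · have h1 := hF m (ν i) (b i) (hG.unit i) h _ (meas_Sh ν b i) (fun x => ENNReal.ofReal (f x))
      (ENNReal.measurable_ofReal.comp hf.measurable)
    rw [fac_eq ν b i h, h1]
    unfold gf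
    simp only [if_pos h]
    rw [lintegral_indicator (meas_Sh ν b i)]
  · unfold gf
    simp only [if_neg h]
    push Not at h
    rw [h]
    simp

lemma vol_fac (hF : S_FAC) (hG : Good ν b) (i : Fin N) (h : ν i 0 ≠ 0) :
    ENNReal.ofReal |ν i 0| * (μHE[m] : Measure (E (m + 1))) (Fac ν b i) =
      volume (Sh ν b i) := by
  have h1 := hF m (ν i) (b i) (hG.unit i) h _ (meas_Sh ν b i) (fun _ => 1) measurable_const
  rw [setLIntegral_one, setLIntegral_one] at h1
  rw [fac_eq ν b i h]
  exact h1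

lemma sh_sub (i : Fin N) : Sh ν b i ⊆ pr '' Poly ν b := fun _ hz => ⟨_, hz, rfl⟩

lemma sum_side (hF : S_FAC) (hG : Good ν b) (s : Finset (Fin N))
    (hs : ∀ i ∈ s, ∀ j ∈ s, 0 < ν i 0 * ν j 0) :
    ∑ i ∈ s, ENNReal.ofReal |ν i 0| * (μHE[m] : Measure (E (m + 1))) (Fac ν b i) ≤
      volume (pr '' Poly ν b) := by
  have h1 : ∑ i ∈ s, ENNReal.ofReal |ν i 0| * (μHE[m] : Measure (E (m + 1))) (Fac ν b i) =
      ∑ i ∈ s, volume (Sh ν b i) := by
    refine Finset.sum_congr rfl fun i hi => vol_fac ν b hF hG i ?_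
    intro h
    have := hs i hi i hi
    rw [h, mul_zero] at this
    exact lt_irrefl _ this
  rw [h1, ← measure_biUnion_finset₀]
  · refine measure_mono ?_
    intro z hz
    simp only [mem_iUnion] at hz
    obtain ⟨i, _, hz⟩ := hz
    exact sh_sub ν b i hz
  · intro i hi j hj hij
    exact null_int ν b hG hij (hs i hi j hj)
  · intro i _
    exact (meas_Sh ν b i).nullMeasurableSet

lemma sum_all (hF : S_FAC) (hG : Good ν b) :
    ∑ i, ENNReal.ofReal |ν i 0| * (μHE[m] : Measure (E (m + 1))) (Fac ν b i) ≤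
      2 * volume (pr '' Poly ν b) := by
  classical
  rw [← Finset.sum_filter_add_sum_filter_not Finset.univ (fun i => 0 < ν i 0), two_mul]
  refine add_le_add ?_ ?_
  · refine sum_side ν b hF hG _ fun i hi j hj => ?_
    exact mul_pos (Finset.mem_filter.1 hi).2 (Finset.mem_filter.1 hj).2
  · rw [← Finset.sum_filter_add_sum_filter_not (Finset.univ.filter fun i => ¬ 0 < ν i 0)
      (fun i => ν i 0 < 0)]
    have h0 : ∑ i ∈ (Finset.univ.filter fun i => ¬ 0 < ν i 0).filter (fun i => ¬ ν i 0 < 0),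
        ENNReal.ofReal |ν i 0| * (μHE[m] : Measure (E (m + 1))) (Fac ν b i) = 0 := by
      refine Finset.sum_eq_zero fun i hi => ?_
      rw [Finset.mem_filter, Finset.mem_filter] at hi
      have : ν i 0 = 0 := le_antisymm (not_lt.1 hi.1.2) (not_lt.1 hi.2)
      rw [this]
      simp
    rw [h0, add_zero]
    refine sum_side ν b hF hG _ fun i hi j hj => ?_
    exact mul_pos_of_neg_of_neg (Finset.mem_filter.1 hi).2 (Finset.mem_filter.1 hj).2

lemma int_le (hF : S_FAC) (hG : Good ν b) {f : E (m + 1) → ℝ} (hf : Continuous f)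
    (h0 : ∀ x, 0 ≤ f x) (hcv : ConvexOn ℝ (Poly ν b) f) :
    2 * ∫⁻ x in Poly ν b, ENNReal.ofReal (f x) ≤
      (⨆ z, volume (Fib ν b z)) * ∑ i, ENNReal.ofReal |ν i 0| *
          ∫⁻ x in Fac ν b i, ENNReal.ofReal (f x) ∂(μHE[m] : Measure (E (m + 1))) := by
  have hm : Measurable ((Poly ν b).indicator (fun x => ENNReal.ofReal (f x))) :=
    (ENNReal.measurable_ofReal.comp hf.measurable).indicator (closed_poly ν b).measurableSet
  rw [← lintegral_indicator (closed_poly ν b).measurableSet, fub hm,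
    ← lintegral_const_mul' _ _ (by simp)]
  refine (lintegral_mono fun z => (fib_ineq ν b hG hf h0 hcv z).trans
    (mul_le_mul_left (le_iSup (fun z => volume (Fib ν b z)) z) _)).trans ?_
  rw [lintegral_const_mul _ (Finset.measurable_sum _ fun i _ => meas_gf ν b hf i)]
  refine mul_le_mul_right (le_of_eq ?_) _
  rw [lintegral_finsetSum _ fun i _ => meas_gf ν b hf i]
  exact Finset.sum_congr rfl fun i _ => lint_gf ν b hF hG hf i

lemma cone_le (hC : S_CONE) (hG : Good ν b) :
    volume (pr '' Poly ν b) * (⨆ z, volume (Fib ν b z)) ≤ (m + 1 : ℕ) * volume (Poly ν b) := by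
  rw [ENNReal.mul_iSup]
  refine iSup_le fun z => ?_
  rcases (Fib ν b z).eq_empty_or_nonempty with hE | hne
  · rw [hE]; simp
  · obtain ⟨B, T, hBT, hF⟩ := fib_Icc ν b hG z hne
    rw [hF, Real.volume_Icc]
    refine hC m (Poly ν b) hG.cpt (convex_poly ν b) z B (T - B) (by linarith) fun t ht => ?_
    have h1 : t ∈ Fib ν b z := by
      rw [hF]
      exact ⟨ht.1, by linarith [ht.2]⟩
    exact h1

end Pool.Agent.TH581.HH.H985

namespace Pool.Agent.TH581.HH

open H985 in
theorem t_star (hF : S_FAC) (hC : S_CONE) : S_STAR := by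
  intro m N ν b hG f hf h0 hcv
  have h1 := sum_all ν b hF hG
  have h2 := int_le ν b hF hG hf h0 hcv
  have h3 := cone_le ν b hC hG
  set R := ∑ i, ENNReal.ofReal |ν i 0| *
          ∫⁻ x in Fac ν b i, ENNReal.ofReal (f x) ∂(μHE[m] : Measure (E (m + 1))) with hR
  calc (∑ i, ENNReal.ofReal |ν i 0| * (μHE[m] : Measure (E (m + 1))) (Fac ν b i)) *
        ∫⁻ x in Poly ν b, ENNReal.ofReal (f x)
      ≤ (2 * volume (pr '' Poly ν b)) * ∫⁻ x in Poly ν b, ENNReal.ofReal (f x) :=
        mul_le_mul_left h1 _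
    _ = volume (pr '' Poly ν b) * (2 * ∫⁻ x in Poly ν b, ENNReal.ofReal (f x)) := by ring
    _ ≤ volume (pr '' Poly ν b) * ((⨆ z, volume (Fib ν b z)) * R) := mul_le_mul_right h2 _
    _ = (volume (pr '' Poly ν b) * (⨆ z, volume (Fib ν b z))) * R := by ring
    _ ≤ (m + 1 : ℕ) * volume (Poly ν b) * R := mul_le_mul_left h3 _

end Pool.Agent.TH581.HH

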